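import Pool.Agent.N219.DW.Mob

open Set Filter Topology Metric MeasureTheory

namespace Pool.Agent.N219.DW

/-- The normalised forward compositions `G_n = bl (1-τ_{n-1}) ∘ ⋯ ∘ bl (1-τ_0)`. -/
noncomputable def G (τ : ℕ → ℝ) : ℕ → ℂ → ℂ
  | 0 => id
  | n + 1 => fun z => bl (1 - τ n) (G τ n z)

/-- The maps `f_n`. -/
noncomputable def ff (δ τ : ℕ → ℝ) (n : ℕ) : ℂ → ℂ :=
  mob (1 - δ (n + 1)) ∘ bl (1 - τ n) ∘ mob (-(1 - δ n))

/-- A jump at time `n`. -/
def Jump (δ τ : ℕ → ℝ) (n : ℕ) : Prop := δ (n + 1) ≤ δ n / 4 ∧ τ n = 1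

/-- Admissible parameters. -/
structure Sched (δ τ : ℕ → ℝ) : Prop where
  d0 : δ 0 = 1
  dpos : ∀ n, 0 < δ n
  dle : ∀ n, δ n ≤ 1
  tpos : ∀ n, 0 < τ n
  tle : ∀ n, τ n ≤ 1
  step : ∀ n, Jump δ τ n ∨ (δ (n + 1) = δ n ∧ τ n ≤ δ n ^ 2 / 8 * (1 / 8) ^ n)
  jumps : ∃ᶠ n in atTop, Jump δ τ n
  lim : Tendsto δ atTop (𝓝 0)

variable {δ τ : ℕ → ℝ} {z z' : ℂ}

theorem abs_one_sub {x : ℝ} (h0 : 0 < x) (h1 : x ≤ 1) : |1 - x| < 1 := by
  rw [abs_of_nonneg (by linarith)]; linarith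

theorem abs_neg_one_sub {x : ℝ} (h0 : 0 < x) (h1 : x ≤ 1) : |-(1 - x)| < 1 := by
  rw [abs_neg]; exact abs_one_sub h0 h1

theorem G_norm_le (hs : Sched δ τ) (hz : ‖z‖ ≤ 1) (n : ℕ) : ‖G τ n z‖ ≤ 1 := by
  induction n with
  | zero => exact hz
  | succ n ih => exact (bl_norm_le (abs_one_sub (hs.tpos n) (hs.tle n)) ih).trans ih

theorem G_norm_succ_le (hs : Sched δ τ) (hz : ‖z‖ ≤ 1) (n : ℕ) :
    ‖G τ (n + 1) z‖ ≤ ‖G τ n z‖ :=
  bl_norm_le (abs_one_sub (hs.tpos n) (hs.tle n)) (G_norm_le hs hz n)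

theorem G_norm_lt (hs : Sched δ τ) (hz : ‖z‖ < 1) (n : ℕ) : ‖G τ n z‖ < 1 := by
  induction n with
  | zero => exact hz
  | succ n ih => exact (G_norm_succ_le hs hz.le n).trans_lt ih

theorem G_norm_eq (hs : Sched δ τ) (hz : ‖z‖ = 1) (n : ℕ) : ‖G τ n z‖ = 1 := by
  induction n with
  | zero => exact hz
  | succ n ih => exact bl_norm_eq (abs_one_sub (hs.tpos n) (hs.tle n)) ih

theorem G_zero (τ : ℕ → ℝ) (n : ℕ) : G τ n 0 = 0 := by
  induction n with
  | zero => rfl
  | succ n ih => simp [G, ih, bl]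

theorem bl_continuousOn {t : ℝ} (ht : |t| < 1) : ContinuousOn (bl t) (closedBall 0 1) :=
  continuousOn_id.mul (mob_continuousOn ht)

theorem bl_differentiableOn {t : ℝ} (ht : |t| < 1) : DifferentiableOn ℂ (bl t) (ball 0 1) :=
  differentiableOn_id.mul (mob_differentiableOn ht)

theorem G_mapsTo (hs : Sched δ τ) (n : ℕ) : MapsTo (G τ n) (closedBall 0 1) (closedBall 0 1) := by
  intro z hz
  simp only [mem_closedBall, dist_zero_right] at hz ⊢
  exact G_norm_le hs hz n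

theorem G_mapsTo' (hs : Sched δ τ) (n : ℕ) : MapsTo (G τ n) (ball 0 1) (ball 0 1) := by
  intro z hz
  simp only [mem_ball, dist_zero_right] at hz ⊢
  exact G_norm_lt hs hz n

theorem G_continuousOn (hs : Sched δ τ) (n : ℕ) : ContinuousOn (G τ n) (closedBall 0 1) := by
  induction n with
  | zero => exact continuousOn_id
  | succ n ih =>
    exact (bl_continuousOn (abs_one_sub (hs.tpos n) (hs.tle n))).comp ih (G_mapsTo hs n)

theorem G_differentiableOn (hs : Sched δ τ) (n : ℕ) : DifferentiableOn ℂ (G τ n) (ball 0 1) := by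
  induction n with
  | zero => exact differentiableOn_id
  | succ n ih =>
    exact (bl_differentiableOn (abs_one_sub (hs.tpos n) (hs.tle n))).comp ih (G_mapsTo' hs n)

theorem fwd_eq (hs : Sched δ τ) (hz : ‖z‖ ≤ 1) (n : ℕ) :
    fwd (ff δ τ) n z = mob (1 - δ n) (G τ n z) := by
  induction n with
  | zero => simp [fwd, G, mob, hs.d0]
  | succ n ih =>
    simp only [fwd, Function.comp_apply, ih, ff, G]
    rw [mob_neg_mob (abs_one_sub (hs.dpos n) (hs.dle n)) (G_norm_le hs hz n)]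

theorem fwd_zero (hs : Sched δ τ) (n : ℕ) : fwd (ff δ τ) n 0 = ((1 - δ n : ℝ) : ℂ) := by
  rw [fwd_eq hs (by simp) n, G_zero, mob_zero]

/-- interior orbits of `G` tend to zero -/
theorem G_tendsto (hs : Sched δ τ) (hz : ‖z‖ < 1) : Tendsto (fun n => G τ n z) atTop (𝓝 0) := by
  rw [tendsto_zero_iff_norm_tendsto_zero]
  have hanti : Antitone (fun n => ‖G τ n z‖) := antitone_nat_of_succ_le
    (fun n => G_norm_succ_le hs hz.le n)
  have hbdd : BddBelow (range fun n => ‖G τ n z‖) := ⟨0, by rintro _ ⟨n, rfl⟩; exact norm_nonneg _⟩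
  have hlim := tendsto_atTop_ciInf hanti hbdd
  set L := ⨅ n, ‖G τ n z‖ with hL
  have hL0 : 0 ≤ L := le_ciInf fun n => norm_nonneg _
  have hL1 : L < 1 := (ciInf_le hbdd 0).trans_lt hz
  have h1 : Tendsto (fun n => ‖G τ (n + 1) z‖) atTop (𝓝 L) := hlim.comp (tendsto_add_atTop_nat 1)
  have h2 : Tendsto (fun n => ‖G τ n z‖ ^ 2) atTop (𝓝 (L ^ 2)) := hlim.pow 2
  have h3 : ∃ᶠ n in atTop, ‖G τ (n + 1) z‖ = ‖G τ n z‖ ^ 2 := by
    refine hs.jumps.mono fun n hn => ?_
    have : G τ (n + 1) z = G τ n z * G τ n z := by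
      simp [G, bl, mob, hn.2]
    rw [this, norm_mul, sq]
  have h4 : L = L ^ 2 := tendsto_nhds_unique_of_frequently_eq h1 h2 h3
  have h5 : L = 0 := by nlinarith
  rwa [h5] at hlim

theorem contracting (hs : Sched δ τ) : Contracting (fwd (ff δ τ)) := by
  intro z hz z' hz'
  simp only [mem_ball, dist_zero_right] at hz hz'
  have h0 : ∀ n, pseudo (fwd (ff δ τ) n z) (fwd (ff δ τ) n z') = pseudo (G τ n z) (G τ n z') := by
    intro n
    rw [fwd_eq hs hz.le, fwd_eq hs hz'.le,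
      pseudo_mob (abs_one_sub (hs.dpos n) (hs.dle n)) (G_norm_le hs hz.le n)
        (G_norm_le hs hz'.le n)]
  have h1 := G_tendsto hs hz
  have h2 := G_tendsto hs hz'
  have h3 : Tendsto (fun n => pseudo (G τ n z) (G τ n z')) atTop (𝓝 0) := by
    unfold pseudo
    have h4 : Tendsto (fun n => (starRingEnd ℂ) (G τ n z')) atTop (𝓝 ((starRingEnd ℂ) 0)) :=
      (Complex.continuous_conj.tendsto 0).comp h2
    have h5 := (((h1.sub h2).div ((tendsto_const_nhds (x := (1 : ℂ))).sub (h4.mul h1))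
      (by simp)).norm)
    simpa using h5
  unfold hyp
  simp only [h0]
  have h6 : Tendsto (fun n => (1 + pseudo (G τ n z) (G τ n z')) /
      (1 - pseudo (G τ n z) (G τ n z'))) atTop (𝓝 ((1 + 0) / (1 - 0))) :=
    (tendsto_const_nhds.add h3).div (tendsto_const_nhds.sub h3) (by norm_num)
  have h7 := (Real.continuousAt_log (x := (1 + 0) / (1 - 0)) (by norm_num)).tendsto.comp h6
  have h8 : Real.log ((1 + 0) / (1 - 0)) = 0 := by norm_num
  rw [h8] at h7
  exact h7

theorem toBoundary (hs : Sched δ τ) : ToBoundary (fwd (ff δ τ)) := by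
  intro z hz
  simp only [mem_ball, dist_zero_right] at hz
  have h1 := G_tendsto hs hz
  have hd : Tendsto (fun n => ((1 - δ n : ℝ) : ℂ)) atTop (𝓝 ((1 - 0 : ℝ) : ℂ)) :=
    (Complex.continuous_ofReal.tendsto _).comp (tendsto_const_nhds.sub hs.lim)
  have h2 : Tendsto (fun n => mob (1 - δ n) (G τ n z)) atTop (𝓝 1) := by
    unfold mob
    have h5 := (h1.add hd).div ((tendsto_const_nhds (x := (1 : ℂ))).add (hd.mul h1)) (by simp)
    have h6 : (0 + ((1 - 0 : ℝ) : ℂ)) / (1 + ((1 - 0 : ℝ) : ℂ) * 0) = 1 := by simp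
    rw [h6] at h5
    exact h5
  have h3 : (fun n => ‖fwd (ff δ τ) n z‖) = fun n => ‖mob (1 - δ n) (G τ n z)‖ := by
    funext n; rw [fwd_eq hs hz.le]
  rw [h3]
  simpa using h2.norm

/-- radial limits of functions continuous up to the boundary -/
theorem radialLimit_of_continuousOn {H : ℂ → ℂ} (hc : ContinuousOn H (closedBall 0 1)) (θ : ℝ) :
    RadialLimit H θ (H (Complex.exp (θ * Complex.I))) := by
  have hmem : Complex.exp (θ * Complex.I) ∈ closedBall (0 : ℂ) 1 := by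
    simp [Complex.norm_exp_ofReal_mul_I]
  have h1 := hc _ hmem
  unfold RadialLimit
  refine h1.tendsto.comp (tendsto_nhdsWithin_iff.2 ⟨?_, ?_⟩)
  · have : Tendsto (fun r : ℝ => (r : ℂ) * Complex.exp (θ * Complex.I)) (𝓝 1)
        (𝓝 (((1 : ℝ) : ℂ) * Complex.exp (θ * Complex.I))) := by
      apply Continuous.tendsto
      fun_prop
    rw [Complex.ofReal_one, one_mul] at this
    exact this.mono_left nhdsWithin_le_nhds
  · have h2 : ∀ᶠ r : ℝ in 𝓝[<] 1, r ∈ Ioo (0 : ℝ) 1 := Ioo_mem_nhdsLT (by norm_num)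
    filter_upwards [h2] with r hr
    simp only [mem_closedBall, dist_zero_right, norm_mul, Complex.norm_real,
      Complex.norm_exp_ofReal_mul_I, mul_one, Real.norm_eq_abs]
    rw [abs_of_pos hr.1]; exact hr.2.le

theorem ff_continuousOn (hs : Sched δ τ) (n : ℕ) : ContinuousOn (ff δ τ n) (closedBall 0 1) := by
  have h1 := abs_neg_one_sub (hs.dpos n) (hs.dle n)
  have h2 := abs_one_sub (hs.tpos n) (hs.tle n)
  have h3 := abs_one_sub (hs.dpos (n + 1)) (hs.dle (n + 1))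
  have m1 : MapsTo (mob (-(1 - δ n))) (closedBall 0 1) (closedBall 0 1) := by
    intro z hz
    simp only [mem_closedBall, dist_zero_right] at hz ⊢
    exact mob_norm_le h1 hz
  have m2 : MapsTo (bl (1 - τ n)) (closedBall 0 1) (closedBall 0 1) := by
    intro z hz
    simp only [mem_closedBall, dist_zero_right] at hz ⊢
    exact (bl_norm_le h2 hz).trans hz
  exact (mob_continuousOn h3).comp ((bl_continuousOn h2).comp (mob_continuousOn h1) m1)
    (m2.comp m1)

theorem ff_isInner (hs : Sched δ τ) (n : ℕ) : IsInner (ff δ τ n) := by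
  have h1 := abs_neg_one_sub (hs.dpos n) (hs.dle n)
  have h2 := abs_one_sub (hs.tpos n) (hs.tle n)
  have h3 := abs_one_sub (hs.dpos (n + 1)) (hs.dle (n + 1))
  have m1 : MapsTo (mob (-(1 - δ n))) (ball 0 1) (ball 0 1) := by
    intro z hz
    simp only [mem_ball, dist_zero_right] at hz ⊢
    exact mob_norm_lt h1 hz
  have m2 : MapsTo (bl (1 - τ n)) (ball 0 1) (ball 0 1) := by
    intro z hz
    simp only [mem_ball, dist_zero_right] at hz ⊢
    exact (bl_norm_le h2 hz.le).trans_lt hz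
  have m3 : MapsTo (mob (1 - δ (n + 1))) (ball 0 1) (ball 0 1) := by
    intro z hz
    simp only [mem_ball, dist_zero_right] at hz ⊢
    exact mob_norm_lt h3 hz
  refine ⟨?_, m3.comp (m2.comp m1), ?_⟩
  · exact (mob_differentiableOn h3).comp ((bl_differentiableOn h2).comp
      (mob_differentiableOn h1) m1) (m2.comp m1)
  · refine Eventually.of_forall fun θ => ⟨_, ?_, radialLimit_of_continuousOn
      (ff_continuousOn hs n) θ⟩
    simp only [ff, Function.comp_apply]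
    apply mob_norm_eq h3
    apply bl_norm_eq h2
    apply mob_norm_eq h1
    exact Complex.norm_exp_ofReal_mul_I θ

end Pool.Agent.N219.DW
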