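import Pool.Agent.N219.DW.Comp

open Set Filter Topology Metric MeasureTheory
open scoped Real

namespace Pool.Agent.N219.DW

variable {δ τ : ℕ → ℝ} {z z' : ℂ}

/-- the boundary point -/
noncomputable def e (θ : ℝ) : ℂ := Complex.exp (θ * Complex.I)

theorem e_norm (θ : ℝ) : ‖e θ‖ = 1 := Complex.norm_exp_ofReal_mul_I θ

theorem e_continuous : Continuous e := by unfold e; fun_prop

theorem comp_e_continuous {H : ℂ → ℂ} (hc : ContinuousOn H (closedBall 0 1)) :
    Continuous (fun θ => H (e θ)) :=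
  hc.comp_continuous e_continuous (fun θ => by simp [e_norm])

/-- mean value property -/
theorem mean_value {H : ℂ → ℂ} (hc : ContinuousOn H (closedBall 0 1))
    (hd : DifferentiableOn ℂ H (ball 0 1)) (hb : ∀ z, ‖z‖ ≤ 1 → ‖H z‖ ≤ 1) :
    ∫⁻ θ in Ioc 0 (2 * π), ENNReal.ofReal (1 - (H (e θ)).re) =
      ENNReal.ofReal (2 * π * (1 - (H 0).re)) := by
  have hcont := comp_e_continuous hc
  have hpi : (0 : ℝ) ≤ 2 * π := by positivity
  have hcl : DiffContOnCl ℂ H (ball 0 |(1 : ℝ)|) := by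
    rw [abs_one]
    refine ⟨hd, ?_⟩
    rw [closure_ball _ one_ne_zero]
    exact hc
  have h1 := hcl.circleAverage
  rw [Real.circleAverage_def] at h1
  have h2 : ∫ θ in (0 : ℝ)..2 * π, H (e θ) = 2 * π * H 0 := by
    have h3 : ∀ θ : ℝ, H (circleMap 0 1 θ) = H (e θ) := by
      intro θ; simp [circleMap, e]
    simp only [h3] at h1
    rw [← h1]
    have : (2 * (π : ℂ)) ≠ 0 := by
      simp [Real.pi_ne_zero]
    rw [Complex.real_smul]
    push_cast
    field_simp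
  have hi : IntervalIntegrable (fun θ => H (e θ)) volume 0 (2 * π) := hcont.intervalIntegrable _ _
  have h4 : ∫ θ in (0 : ℝ)..2 * π, (H (e θ)).re = 2 * π * (H 0).re := by
    have h5 := Complex.reCLM.intervalIntegral_comp_comm hi
    simp only [Complex.reCLM_apply] at h5
    rw [h5, h2]
    simp
  have hcr : Continuous (fun θ => 1 - (H (e θ)).re) :=
    continuous_const.sub (Complex.continuous_re.comp hcont)
  have h6 : ∫ θ in Ioc 0 (2 * π), (1 - (H (e θ)).re) = 2 * π * (1 - (H 0).re) := by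
    rw [← intervalIntegral.integral_of_le hpi, intervalIntegral.integral_sub, h4]
    · simp; ring
    · exact intervalIntegrable_const
    · exact (Complex.continuous_re.comp hcont).intervalIntegrable _ _
  rw [← h6, ofReal_integral_eq_lintegral_ofReal]
  · exact (hcr.integrableOn_Icc).mono_set Ioc_subset_Icc_self
  · refine Eventually.of_forall fun θ => ?_
    have := Complex.re_le_norm (H (e θ))
    have h7 := hb (e θ) (e_norm θ).le
    simp only [Pi.zero_apply]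
    linarith

theorem norm_sub_one_sq_le {w : ℂ} (hw : ‖w‖ ≤ 1) : ‖w - 1‖ ^ 2 ≤ 2 * (1 - w.re) := by
  have h1 := normSq_le hw
  rw [← Complex.normSq_eq_norm_sq]
  rw [Complex.normSq_apply] at h1 ⊢
  simp only [Complex.sub_re, Complex.one_re, Complex.sub_im, Complex.one_im]
  nlinarith

/-- `Φ_n` on the circle -/
noncomputable def Ph (δ τ : ℕ → ℝ) (n : ℕ) (θ : ℝ) : ℂ := mob (1 - δ n) (G τ n (e θ))

/-- the auxiliary holomorphic function at time `n` -/
noncomputable def Hn (δ τ : ℕ → ℝ) (n : ℕ) : ℂ → ℂ := by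
  classical
  exact if Jump δ τ n then (fun z => mob (1 - δ (n + 1)) (G τ (n + 1) z))
    else (fun z => mob (1 - τ n) (G τ n z))

/-- weights -/
noncomputable def wt (δ τ : ℕ → ℝ) (n : ℕ) : ℝ := by
  classical
  exact if Jump δ τ n then 1 else 8 * 4 ^ n / δ n ^ 2

theorem wt_pos (hs : Sched δ τ) (n : ℕ) : 0 < wt δ τ n := by
  unfold wt
  have := hs.dpos n
  split_ifs <;> positivity

theorem Hn_cont (hs : Sched δ τ) (n : ℕ) : ContinuousOn (Hn δ τ n) (closedBall 0 1) := by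
  unfold Hn
  split_ifs
  · exact (mob_continuousOn (abs_one_sub (hs.dpos _) (hs.dle _))).comp (G_continuousOn hs _)
      (G_mapsTo hs _)
  · exact (mob_continuousOn (abs_one_sub (hs.tpos _) (hs.tle _))).comp (G_continuousOn hs _)
      (G_mapsTo hs _)

theorem Hn_diff (hs : Sched δ τ) (n : ℕ) : DifferentiableOn ℂ (Hn δ τ n) (ball 0 1) := by
  unfold Hn
  split_ifs
  · exact (mob_differentiableOn (abs_one_sub (hs.dpos _) (hs.dle _))).comp
      (G_differentiableOn hs _) (G_mapsTo' hs _)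
  · exact (mob_differentiableOn (abs_one_sub (hs.tpos _) (hs.tle _))).comp
      (G_differentiableOn hs _) (G_mapsTo' hs _)

theorem Hn_norm (hs : Sched δ τ) (n : ℕ) (z : ℂ) (hz : ‖z‖ ≤ 1) : ‖Hn δ τ n z‖ ≤ 1 := by
  unfold Hn
  split_ifs
  · exact mob_norm_le (abs_one_sub (hs.dpos _) (hs.dle _)) (G_norm_le hs hz _)
  · exact mob_norm_le (abs_one_sub (hs.tpos _) (hs.tle _)) (G_norm_le hs hz _)

/-- the summands -/
noncomputable def sn (δ τ : ℕ → ℝ) (n : ℕ) (θ : ℝ) : ℝ := wt δ τ n * (1 - (Hn δ τ n (e θ)).re)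

theorem sn_nonneg (hs : Sched δ τ) (n : ℕ) (θ : ℝ) : 0 ≤ sn δ τ n θ := by
  apply mul_nonneg (wt_pos hs n).le
  have := Complex.re_le_norm (Hn δ τ n (e θ))
  have h7 := Hn_norm hs n (e θ) (e_norm θ).le
  linarith

theorem sn_cont (hs : Sched δ τ) (n : ℕ) : Continuous (sn δ τ n) :=
  continuous_const.mul (continuous_const.sub
    (Complex.continuous_re.comp (comp_e_continuous (Hn_cont hs n))))

theorem sn_lintegral_le (hs : Sched δ τ) (n : ℕ) :
    ∫⁻ θ in Ioc 0 (2 * π), ENNReal.ofReal (sn δ τ n θ) ≤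
      ENNReal.ofReal (2 * π * ((δ n - δ (n + 1)) + (1 / 2) ^ n)) := by
  have h1 : ∫⁻ θ in Ioc 0 (2 * π), ENNReal.ofReal (sn δ τ n θ) =
      ENNReal.ofReal (wt δ τ n) * ENNReal.ofReal (2 * π * (1 - (Hn δ τ n 0).re)) := by
    rw [← mean_value (Hn_cont hs n) (Hn_diff hs n) (Hn_norm hs n), ← lintegral_const_mul']
    · refine lintegral_congr fun θ => ?_
      rw [sn, ENNReal.ofReal_mul (wt_pos hs n).le]
    · exact ENNReal.ofReal_ne_top
  rw [h1, ← ENNReal.ofReal_mul (wt_pos hs n).le]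
  apply ENNReal.ofReal_le_ofReal
  have hpi := Real.pi_pos
  have key : wt δ τ n * (1 - (Hn δ τ n 0).re) ≤ (δ n - δ (n + 1)) + (1 / 2) ^ n := by
    unfold wt Hn
    split_ifs with hj
    · simp only [G_zero, mob_zero, Complex.ofReal_re]
      have h2 := hj.1
      have h3 : (0 : ℝ) < (1 / 2) ^ n := by positivity
      have h4 := hs.dpos (n + 1)
      linarith
    · simp only [G_zero, mob_zero, Complex.ofReal_re]
      rcases hs.step n with h | ⟨h2, h3⟩
      · exact absurd h hj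
      · rw [h2, sub_self, zero_add]
        have hd := hs.dpos n
        have h5 : 8 * 4 ^ n / δ n ^ 2 * (1 - (1 - τ n)) ≤
            8 * 4 ^ n / δ n ^ 2 * (δ n ^ 2 / 8 * (1 / 8) ^ n) := by
          apply mul_le_mul_of_nonneg_left (by linarith) (by positivity)
        refine h5.trans (le_of_eq ?_)
        have h6 : (1 / 2 : ℝ) ^ n = 4 ^ n * (1 / 8) ^ n := by
          rw [← mul_pow]; norm_num
        rw [h6]
        field_simp
  nlinarith

theorem summable_bound (hs : Sched δ τ) :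
    Summable (fun n => 2 * π * ((δ n - δ (n + 1)) + (1 / 2 : ℝ) ^ n)) := by
  apply Summable.mul_left
  apply Summable.add
  · apply summable_of_sum_range_le (c := 1)
    · intro n
      rcases hs.step n with h | ⟨h2, h3⟩
      · have := h.1; have := hs.dpos n; linarith
      · linarith
    · intro n
      rw [Finset.sum_range_sub', hs.d0]
      linarith [hs.dpos n]
  · exact summable_geometric_of_lt_one (by norm_num) (by norm_num)

theorem bound_nonneg (hs : Sched δ τ) (n : ℕ) :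
    0 ≤ 2 * π * ((δ n - δ (n + 1)) + (1 / 2 : ℝ) ^ n) := by
  have hpi := Real.pi_pos
  have h3 : (0 : ℝ) < (1 / 2) ^ n := by positivity
  apply mul_nonneg (by positivity)
  rcases hs.step n with h | ⟨h2, h3⟩
  · have := h.1; have := hs.dpos n; linarith
  · linarith

/-- almost everywhere, `s_n → 0`. -/
theorem ae_sn_tendsto (hs : Sched δ τ) :
    ∀ᵐ θ ∂(volume.restrict (Ioc 0 (2 * π))), Tendsto (fun n => sn δ τ n θ) atTop (𝓝 0) := by
  have hm : ∀ n, Measurable (fun θ => ENNReal.ofReal (sn δ τ n θ)) := fun n =>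
    (sn_cont hs n).measurable.ennreal_ofReal
  have h1 : ∫⁻ θ in Ioc 0 (2 * π), ∑' n, ENNReal.ofReal (sn δ τ n θ) ≠ ⊤ := by
    rw [lintegral_tsum (fun n => (hm n).aemeasurable)]
    refine ne_of_lt ((ENNReal.tsum_le_tsum (sn_lintegral_le hs)).trans_lt ?_)
    rw [← ENNReal.ofReal_tsum_of_nonneg (bound_nonneg hs) (summable_bound hs)]
    exact ENNReal.ofReal_lt_top
  have h2 := ae_lt_top (Measurable.ennreal_tsum hm) h1
  filter_upwards [h2] with θ hθ
  have h3 := ENNReal.tendsto_atTop_zero_of_tsum_ne_top hθ.ne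
  have h4 := (ENNReal.tendsto_toReal ENNReal.zero_ne_top).comp h3
  have h5 : (ENNReal.toReal ∘ fun n => ENNReal.ofReal (sn δ τ n θ)) = fun n => sn δ τ n θ := by
    funext n
    exact ENNReal.toReal_ofReal (sn_nonneg hs n θ)
  rw [h5] at h4
  simpa using h4

theorem Ph_jump (hs : Sched δ τ) {n : ℕ} (hj : Jump δ τ n) (θ : ℝ) :
    ‖Ph δ τ (n + 1) θ - 1‖ ^ 2 ≤ 2 * sn δ τ n θ := by
  have h1 : ‖Ph δ τ (n + 1) θ‖ ≤ 1 :=
    mob_norm_le (abs_one_sub (hs.dpos _) (hs.dle _)) (G_norm_le hs (e_norm θ).le _)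
  refine (norm_sub_one_sq_le h1).trans (le_of_eq ?_)
  simp [sn, wt, Hn, hj, Ph]

theorem Ph_nonjump (hs : Sched δ τ) {n : ℕ} (hj : ¬ Jump δ τ n) (θ : ℝ) :
    ‖Ph δ τ (n + 1) θ - Ph δ τ n θ‖ ^ 2 ≤ (1 / 4) ^ n * sn δ τ n θ := by
  have hstep : δ (n + 1) = δ n := by
    rcases hs.step n with h | ⟨h2, h3⟩
    · exact absurd h hj
    · exact h2
  set g := G τ n (e θ) with hg
  have hgn : ‖g‖ = 1 := G_norm_eq hs (e_norm θ) n
  have hd := hs.dpos n
  have ht := abs_one_sub (hs.tpos n) (hs.tle n)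
  have h1 : ‖Ph δ τ (n + 1) θ - Ph δ τ n θ‖ ≤ 2 / δ n * ‖mob (1 - τ n) g - 1‖ := by
    have h2 := mob_lip (a := 1 - δ n) (z := bl (1 - τ n) g) (w := g)
      (by linarith [hs.dle n]) (by linarith) ((bl_norm_le ht hgn.le).trans hgn.le) hgn.le
    have h3 : bl (1 - τ n) g - g = g * (mob (1 - τ n) g - 1) := by rw [bl]; ring
    rw [h3, norm_mul, hgn, one_mul] at h2
    have h4 : (1 : ℝ) - (1 - δ n) = δ n := by ring
    rw [h4] at h2
    unfold Ph
    rw [hstep]
    exact h2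
  have h5 : ‖mob (1 - τ n) g - 1‖ ^ 2 ≤ 2 * (1 - (mob (1 - τ n) g).re) :=
    norm_sub_one_sq_le (mob_norm_le ht hgn.le)
  have h6 : sn δ τ n θ = 8 * 4 ^ n / δ n ^ 2 * (1 - (mob (1 - τ n) g).re) := by
    simp [sn, wt, Hn, hj, hg]
  rw [h6]
  calc ‖Ph δ τ (n + 1) θ - Ph δ τ n θ‖ ^ 2 ≤ (2 / δ n * ‖mob (1 - τ n) g - 1‖) ^ 2 :=
        pow_le_pow_left₀ (norm_nonneg _) h1 2
    _ = 4 / δ n ^ 2 * ‖mob (1 - τ n) g - 1‖ ^ 2 := by ring
    _ ≤ 4 / δ n ^ 2 * (2 * (1 - (mob (1 - τ n) g).re)) :=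
        mul_le_mul_of_nonneg_left h5 (by positivity)
    _ = (1 / 4) ^ n * (8 * 4 ^ n / δ n ^ 2 * (1 - (mob (1 - τ n) g).re)) := by
        rw [one_div, inv_pow]
        field_simp
        ring

/-- deterministic convergence lemma -/
theorem det_lemma {x : ℕ → ℂ} {s : ℕ → ℝ} {J : ℕ → Prop} (hJ : ∃ᶠ n in atTop, J n)
    (h1 : ∀ n, J n → ‖x (n + 1) - 1‖ ^ 2 ≤ 2 * s n)
    (h2 : ∀ n, ¬ J n → ‖x (n + 1) - x n‖ ^ 2 ≤ (1 / 4) ^ n * s n)
    (hs : Tendsto s atTop (𝓝 0)) : Tendsto x atTop (𝓝 1) := by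
  rw [Metric.tendsto_atTop]
  intro ε hε
  have e1 : ∀ᶠ n in atTop, s n < min 1 ((ε / 3) ^ 2 / 2) :=
    hs.eventually (gt_mem_nhds (by positivity))
  have e2 : ∀ᶠ n : ℕ in atTop, (1 / 2 : ℝ) ^ n < ε / 6 :=
    (tendsto_pow_atTop_nhds_zero_of_lt_one (by norm_num) (by norm_num)).eventually
      (gt_mem_nhds (by positivity))
  obtain ⟨N, hN⟩ := (e1.and e2).exists_forall_of_atTop
  obtain ⟨m, hmN, hm⟩ := (frequently_atTop.1 hJ) N
  have jb : ∀ n, N ≤ n → J n → ‖x (n + 1) - 1‖ ≤ ε / 3 := by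
    intro n hn hj
    have h3 := h1 n hj
    have h4 := (hN n hn).1
    have h5 := lt_of_lt_of_le h4 (min_le_right _ _)
    have h6 : ‖x (n + 1) - 1‖ ^ 2 ≤ (ε / 3) ^ 2 := by linarith
    exact (pow_le_pow_iff_left₀ (norm_nonneg _) (by positivity) (by norm_num)).1 h6
  have nb : ∀ n, N ≤ n → ¬ J n → ‖x (n + 1) - x n‖ ≤ (1 / 2) ^ n := by
    intro n hn hj
    have h3 := h2 n hj
    have h4 := (hN n hn).1
    have h5 := lt_of_lt_of_le h4 (min_le_left _ _)
    have h6 : ‖x (n + 1) - x n‖ ^ 2 ≤ ((1 / 2) ^ n) ^ 2 := by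
      have h7 : ((1 / 2 : ℝ) ^ n) ^ 2 = (1 / 4) ^ n := by
        rw [← pow_mul, mul_comm n 2, pow_mul]; norm_num
      rw [h7]
      have h8 : (0 : ℝ) < (1 / 4) ^ n := by positivity
      nlinarith
    exact (pow_le_pow_iff_left₀ (norm_nonneg _) (by positivity) (by norm_num)).1 h6
  have main : ∀ n, m + 1 ≤ n → ‖x n - 1‖ ≤ ε / 3 + 2 * (1 / 2) ^ m - 2 * (1 / 2) ^ n := by
    intro n hn
    induction n, hn using Nat.le_induction with
    | base =>
      have h3 := jb m hmN hm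
      rw [pow_succ]
      have h8 : (0 : ℝ) < (1 / 2) ^ m := by positivity
      linarith
    | succ n hn ih =>
      have hNn : N ≤ n := by omega
      by_cases hj : J n
      · have h3 := jb n hNn hj
        have h8 : (1 / 2 : ℝ) ^ (n + 1) ≤ (1 / 2) ^ m :=
          pow_le_pow_of_le_one (by norm_num) (by norm_num) (by omega)
        linarith
      · have h3 := nb n hNn hj
        have h4 : ‖x (n + 1) - 1‖ ≤ ‖x (n + 1) - x n‖ + ‖x n - 1‖ := by
          have := norm_add_le (x (n + 1) - x n) (x n - 1)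
          rwa [sub_add_sub_cancel] at this
        rw [pow_succ]
        linarith
  refine ⟨m + 1, fun n hn => ?_⟩
  rw [dist_eq_norm]
  have h3 := main n hn
  have h4 := (hN m hmN).2
  have h8 : (0 : ℝ) < (1 / 2) ^ n := by positivity
  linarith

theorem ae_Ph_tendsto (hs : Sched δ τ) :
    ∀ᵐ θ ∂(volume.restrict (Ioc 0 (2 * π))), Tendsto (fun n => Ph δ τ n θ) atTop (𝓝 1) := by
  filter_upwards [ae_sn_tendsto hs] with θ hθ
  exact det_lemma (J := Jump δ τ) hs.jumps (fun n hj => Ph_jump hs hj θ)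
    (fun n hj => Ph_nonjump hs hj θ) hθ

theorem e_add_int (θ : ℝ) (k : ℤ) : e (k • (2 * π) + θ) = e θ := by
  unfold e
  rw [Complex.exp_eq_exp_iff_exists_int]
  refine ⟨k, ?_⟩
  push_cast
  simp only [zsmul_eq_mul]
  push_cast
  ring

theorem ae_Ph_tendsto' (hs : Sched δ τ) :
    ∀ᵐ θ : ℝ, Tendsto (fun n => Ph δ τ n θ) atTop (𝓝 1) := by
  have hT : (0 : ℝ) < 2 * π := by positivity
  have hF := isAddFundamentalDomain_Ioc hT 0
  have h0 := ae_Ph_tendsto hs
  rw [ae_restrict_iff' measurableSet_Ioc, ae_iff] at h0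
  rw [ae_iff]
  refine hF.measure_zero_of_invariant _ ?_ ?_
  · rintro ⟨g, hg⟩
    obtain ⟨k, rfl⟩ := AddSubgroup.mem_zmultiples_iff.1 hg
    ext θ
    rw [Set.mem_vadd_set_iff_neg_vadd_mem]
    simp only [mem_setOf_eq]
    have : ∀ n, Ph δ τ n (-(⟨k • (2 * π), hg⟩ : AddSubgroup.zmultiples (2 * π)) +ᵥ θ) =
        Ph δ τ n θ := by
      intro n
      unfold Ph
      have h2 : (-(⟨k • (2 * π), hg⟩ : AddSubgroup.zmultiples (2 * π)) +ᵥ θ) =
          (-k) • (2 * π) + θ := by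
        simp [AddSubgroup.vadd_def]
      rw [h2, e_add_int]
    simp only [this]
  · rw [zero_add]
    refine measure_mono_null ?_ h0
    rintro θ ⟨h1, h2⟩
    simp only [mem_setOf_eq] at h1 ⊢
    exact fun h => h1 (h h2)

theorem ae_inDW (hs : Sched δ τ) : ∀ᵐ θ : ℝ, InDenjoyWolff (fwd (ff δ τ)) θ := by
  filter_upwards [ae_Ph_tendsto' hs] with θ hθ
  refine ⟨fun n => Ph δ τ n θ, ?_, ?_⟩
  · intro n
    have hc : ContinuousOn (fun z => mob (1 - δ n) (G τ n z)) (closedBall 0 1) :=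
      (mob_continuousOn (abs_one_sub (hs.dpos _) (hs.dle _))).comp (G_continuousOn hs _)
        (G_mapsTo hs _)
    have h1 := radialLimit_of_continuousOn hc θ
    unfold RadialLimit at h1 ⊢
    refine h1.congr' ?_
    have h2 : ∀ᶠ r : ℝ in 𝓝[<] 1, r ∈ Ioo (0 : ℝ) 1 := Ioo_mem_nhdsLT (by norm_num)
    filter_upwards [h2] with r hr
    rw [fwd_eq hs]
    simp only [norm_mul, Complex.norm_real, Complex.norm_exp_ofReal_mul_I, mul_one,
      Real.norm_eq_abs]
    rw [abs_of_pos hr.1]; exact hr.2.le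
  · have hd : Tendsto (fun n => ((1 - δ n : ℝ) : ℂ)) atTop (𝓝 ((1 - 0 : ℝ) : ℂ)) :=
      (Complex.continuous_ofReal.tendsto _).comp (tendsto_const_nhds.sub hs.lim)
    simp only [fwd_zero hs]
    have := (hθ.sub hd).norm
    simpa using this

end Pool.Agent.N219.DW
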