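import Mathlib

/-!
# Non-autonomous compositions of inner functions: definitions
-/

open Set Filter Topology Metric

namespace Pool.Agent.N219.DW

/-- `w` is the radial limit of `g` at the point `e^{iθ}` of the unit circle. -/
def RadialLimit (g : ℂ → ℂ) (θ : ℝ) (w : ℂ) : Prop :=
  Tendsto (fun r : ℝ => g (r * Complex.exp (θ * Complex.I))) (𝓝[<] 1) (𝓝 w)

/-- Inner functions: holomorphic self-maps of the unit disc whose radial limits have modulus `1` at
almost every point of the unit circle. -/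
def IsInner (g : ℂ → ℂ) : Prop :=
  DifferentiableOn ℂ g (ball 0 1) ∧ MapsTo g (ball 0 1) (ball 0 1) ∧
    ∀ᵐ θ : ℝ, ∃ w : ℂ, ‖w‖ = 1 ∧ RadialLimit g θ w

/-- Forward compositions: `fwd f n = f_n ∘ ⋯ ∘ f_1`, where `f_k` is `f (k - 1)`. -/
def fwd (f : ℕ → ℂ → ℂ) : ℕ → ℂ → ℂ
  | 0 => id
  | n + 1 => f n ∘ fwd f n

/-- The pseudo-hyperbolic distance of the unit disc. -/
noncomputable def pseudo (z w : ℂ) : ℝ :=
  ‖(z - w) / (1 - (starRingEnd ℂ) w * z)‖

/-- The hyperbolic distance of the unit disc (curvature `-1`). -/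
noncomputable def hyp (z w : ℂ) : ℝ := Real.log ((1 + pseudo z w) / (1 - pseudo z w))

/-- The sequence `F` is contracting: hyperbolic distances of orbits tend to zero. -/
def Contracting (F : ℕ → ℂ → ℂ) : Prop :=
  ∀ z ∈ ball (0 : ℂ) 1, ∀ z' ∈ ball (0 : ℂ) 1,
    Tendsto (fun n => hyp (F n z) (F n z')) atTop (𝓝 0)

/-- Interior orbits converge to the boundary. -/
def ToBoundary (F : ℕ → ℂ → ℂ) : Prop :=
  ∀ z ∈ ball (0 : ℂ) 1, Tendsto (fun n => ‖F n z‖) atTop (𝓝 1)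

/-- The point `e^{iθ}` is in the Denjoy–Wolff set: the radial limits `F_n(e^{iθ})` exist and
`|F_n(e^{iθ}) - F_n(0)| → 0`. -/
def InDenjoyWolff (F : ℕ → ℂ → ℂ) (θ : ℝ) : Prop :=
  ∃ w : ℕ → ℂ, (∀ n, RadialLimit (F n) θ (w n)) ∧
    Tendsto (fun n => ‖w n - F n 0‖) atTop (𝓝 0)

/-- The disc automorphism `z ↦ (z + a) / (1 + a z)`, `a` real, `|a| < 1`. -/
noncomputable def mob (a : ℝ) (z : ℂ) : ℂ := (z + a) / (1 + a * z)

/-- The Blaschke product of degree two `z ↦ z (z + t) / (1 + t z)`, `t` real, `|t| < 1`. -/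
noncomputable def bl (t : ℝ) (z : ℂ) : ℂ := z * mob t z

end Pool.Agent.N219.DW
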