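import Pool.Agent.N219.DW.Defs

open Set Filter Topology Metric

namespace Pool.Agent.N219.DW

variable {a t : ℝ} {z w : ℂ}

theorem den_ne (ha : |a| < 1) (hz : ‖z‖ ≤ 1) : (1 : ℂ) + a * z ≠ 0 := by
  intro h
  have h1 : (a : ℂ) * z = -1 := by linear_combination h
  have h2 : ‖(a : ℂ) * z‖ = 1 := by rw [h1, norm_neg, norm_one]
  rw [norm_mul, Complex.norm_real, Real.norm_eq_abs] at h2
  nlinarith [abs_nonneg a, norm_nonneg z]

/-- the basic identity `|1 + a z|² - |z + a|² = (1 - a²)(1 - |z|²)` -/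
theorem key_id (a : ℝ) (z : ℂ) :
    Complex.normSq (1 + a * z) - Complex.normSq (z + a) = (1 - a ^ 2) * (1 - Complex.normSq z) := by
  simp only [Complex.normSq_apply, Complex.add_re, Complex.add_im, Complex.mul_re, Complex.mul_im,
    Complex.ofReal_re, Complex.ofReal_im, Complex.one_re, Complex.one_im]
  ring

theorem one_sub_normSq_mob (ha : |a| < 1) (hz : ‖z‖ ≤ 1) :
    1 - Complex.normSq (mob a z) =
      (1 - a ^ 2) * (1 - Complex.normSq z) / Complex.normSq (1 + a * z) := by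
  have h := den_ne ha hz
  have h1 : Complex.normSq (1 + a * z) ≠ 0 := by
    rw [Ne, Complex.normSq_eq_zero]; exact h
  rw [mob, Complex.normSq_div, ← key_id, sub_div, div_self h1]

theorem sq_lt_one (ha : |a| < 1) : 0 < 1 - a ^ 2 := by
  have := (sq_lt_one_iff_abs_lt_one a).2 ha
  linarith

theorem normSq_le (hz : ‖z‖ ≤ 1) : Complex.normSq z ≤ 1 := by
  rw [Complex.normSq_eq_norm_sq]; exact pow_le_one₀ (norm_nonneg _) hz

theorem norm_le_of_normSq (h : Complex.normSq z ≤ 1) : ‖z‖ ≤ 1 := by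
  rw [Complex.normSq_eq_norm_sq] at h
  exact (sq_le_one_iff₀ (norm_nonneg _)).1 h

theorem mob_norm_le (ha : |a| < 1) (hz : ‖z‖ ≤ 1) : ‖mob a z‖ ≤ 1 := by
  apply norm_le_of_normSq
  have h := one_sub_normSq_mob ha hz
  have h1 : 0 ≤ (1 - a ^ 2) * (1 - Complex.normSq z) / Complex.normSq (1 + a * z) := by
    apply div_nonneg
    · exact mul_nonneg (sq_lt_one ha).le (by linarith [normSq_le hz])
    · exact Complex.normSq_nonneg _
  linarith

theorem mob_norm_lt (ha : |a| < 1) (hz : ‖z‖ < 1) : ‖mob a z‖ < 1 := by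
  have h := one_sub_normSq_mob ha hz.le
  have h0 : 0 < Complex.normSq (1 + a * z) := Complex.normSq_pos.2 (den_ne ha hz.le)
  have h2 : Complex.normSq z < 1 := by
    rw [Complex.normSq_eq_norm_sq]; exact pow_lt_one₀ (norm_nonneg _) hz (by norm_num)
  have h1 : 0 < (1 - a ^ 2) * (1 - Complex.normSq z) / Complex.normSq (1 + a * z) := by
    apply div_pos (mul_pos (sq_lt_one ha) (by linarith)) h0
  have h3 : Complex.normSq (mob a z) < 1 := by linarith
  rw [Complex.normSq_eq_norm_sq] at h3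
  exact (sq_lt_one_iff₀ (norm_nonneg _)).1 h3

theorem mob_norm_eq (ha : |a| < 1) (hz : ‖z‖ = 1) : ‖mob a z‖ = 1 := by
  have h := one_sub_normSq_mob ha hz.le
  have h2 : Complex.normSq z = 1 := by rw [Complex.normSq_eq_norm_sq, hz]; norm_num
  rw [h2, sub_self, mul_zero, zero_div] at h
  have h3 : ‖mob a z‖ ^ 2 = 1 := by rw [← Complex.normSq_eq_norm_sq]; linarith
  have h4 := norm_nonneg (mob a z)
  nlinarith

theorem mob_neg_mob (ha : |a| < 1) (hz : ‖z‖ ≤ 1) : mob (-a) (mob a z) = z := by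
  have h := den_ne ha hz
  have h2 : (1 : ℂ) - a ^ 2 ≠ 0 := by
    have := sq_lt_one ha
    exact_mod_cast this.ne'
  have h3 : mob a z + ((-a : ℝ) : ℂ) = (1 - a ^ 2) * z / (1 + a * z) := by
    rw [mob, eq_div_iff h, add_mul, div_mul_cancel₀ _ h]
    push_cast
    ring
  have h4 : 1 + ((-a : ℝ) : ℂ) * mob a z = (1 - a ^ 2) / (1 + a * z) := by
    rw [mob, eq_div_iff h, add_mul, mul_assoc, div_mul_cancel₀ _ h]
    push_cast
    ring
  rw [show mob (-a) (mob a z) = (mob a z + ((-a : ℝ) : ℂ)) / (1 + ((-a : ℝ) : ℂ) * mob a z) from rfl,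
    h3, h4, div_div_div_cancel_right₀ h, mul_div_cancel_left₀ _ h2]

theorem mob_zero (a : ℝ) : mob a 0 = a := by simp [mob]

theorem mob_continuousOn (ha : |a| < 1) : ContinuousOn (mob a) (closedBall 0 1) := by
  unfold mob
  apply ContinuousOn.div
  · fun_prop
  · fun_prop
  · intro x hx
    exact den_ne ha (by simpa using hx)

theorem mob_differentiableOn (ha : |a| < 1) : DifferentiableOn ℂ (mob a) (ball 0 1) := by
  unfold mob
  apply DifferentiableOn.div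
  · fun_prop
  · fun_prop
  · intro x hx
    exact den_ne ha (by have : ‖x‖ < 1 := by simpa using hx
                        exact this.le)

theorem bl_norm_le (ht : |t| < 1) (hz : ‖z‖ ≤ 1) : ‖bl t z‖ ≤ ‖z‖ := by
  rw [bl, norm_mul]
  exact mul_le_of_le_one_right (norm_nonneg _) (mob_norm_le ht hz)

theorem bl_norm_eq (ht : |t| < 1) (hz : ‖z‖ = 1) : ‖bl t z‖ = 1 := by
  rw [bl, norm_mul, hz, mob_norm_eq ht hz, one_mul]

/-- difference formula -/
theorem mob_sub_mob (ha : |a| < 1) (hz : ‖z‖ ≤ 1) (hw : ‖w‖ ≤ 1) :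
    mob a z - mob a w = (1 - a ^ 2) * (z - w) / ((1 + a * z) * (1 + a * w)) := by
  have h1 := den_ne ha hz
  have h2 := den_ne ha hw
  unfold mob
  rw [div_sub_div _ _ h1 h2]
  congr 1
  ring

theorem den_norm_ge (ha0 : 0 ≤ a) (hz : ‖z‖ ≤ 1) : 1 - a ≤ ‖(1 : ℂ) + a * z‖ := by
  have h1 : ‖(1 : ℂ)‖ ≤ ‖(1 : ℂ) + a * z‖ + ‖(a : ℂ) * z‖ := by
    have := norm_sub_le ((1 : ℂ) + a * z) (a * z)
    rwa [add_sub_cancel_right] at this
  rw [norm_one, norm_mul, Complex.norm_real, Real.norm_of_nonneg ha0] at h1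
  nlinarith [norm_nonneg z]

theorem mob_lip (ha0 : 0 ≤ a) (ha1 : a < 1) (hz : ‖z‖ ≤ 1) (hw : ‖w‖ ≤ 1) :
    ‖mob a z - mob a w‖ ≤ 2 / (1 - a) * ‖z - w‖ := by
  have ha : |a| < 1 := by rwa [abs_of_nonneg ha0]
  rw [mob_sub_mob ha hz hw, norm_div, norm_mul, norm_mul]
  have h1 := den_norm_ge ha0 hz
  have h2 := den_norm_ge ha0 hw
  have h3 : ‖(1 : ℂ) - a ^ 2‖ = 1 - a ^ 2 := by
    have : (1 : ℂ) - a ^ 2 = ((1 - a ^ 2 : ℝ) : ℂ) := by push_cast; ring
    rw [this, Complex.norm_real, Real.norm_of_nonneg (sq_lt_one ha).le]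
  rw [h3]
  have h4 : 0 < 1 - a := by linarith
  have h5 : (1 - a) * (1 - a) ≤ ‖(1 : ℂ) + a * z‖ * ‖(1 : ℂ) + a * w‖ :=
    mul_le_mul h1 h2 h4.le (norm_nonneg _)
  have h6 : 0 ≤ (1 - a ^ 2) * ‖z - w‖ := mul_nonneg (sq_lt_one ha).le (norm_nonneg _)
  calc (1 - a ^ 2) * ‖z - w‖ / (‖(1 : ℂ) + a * z‖ * ‖(1 : ℂ) + a * w‖)
      ≤ (1 - a ^ 2) * ‖z - w‖ / ((1 - a) * (1 - a)) :=
        div_le_div_of_nonneg_left h6 (mul_pos h4 h4) h5
    _ = (1 + a) / (1 - a) * ‖z - w‖ := by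
        field_simp
        ring
    _ ≤ 2 / (1 - a) * ‖z - w‖ := by
        apply mul_le_mul_of_nonneg_right _ (norm_nonneg _)
        apply div_le_div_of_nonneg_right _ h4.le
        linarith

/-- invariance of the pseudo-hyperbolic distance -/
theorem pseudo_mob (ha : |a| < 1) (hz : ‖z‖ ≤ 1) (hw : ‖w‖ ≤ 1) :
    pseudo (mob a z) (mob a w) = pseudo z w := by
  have h1 := den_ne ha hz
  have h2 := den_ne ha hw
  have h2' : (1 : ℂ) + a * (starRingEnd ℂ) w ≠ 0 := den_ne ha (by simpa using hw)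
  have h3 : (1 : ℂ) - a ^ 2 ≠ 0 := by
    have := sq_lt_one ha
    exact_mod_cast this.ne'
  unfold pseudo
  rw [mob_sub_mob ha hz hw]
  have h4 : (starRingEnd ℂ) (mob a w) = ((starRingEnd ℂ) w + a) / (1 + a * (starRingEnd ℂ) w) := by
    simp [mob, map_div₀]
  have h5 : 1 - (starRingEnd ℂ) (mob a w) * mob a z =
      (1 - a ^ 2) * (1 - (starRingEnd ℂ) w * z) / ((1 + a * (starRingEnd ℂ) w) * (1 + a * z)) := by
    rw [h4, mob, eq_div_iff (mul_ne_zero h2' h1), sub_mul, div_mul_div_comm,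
      div_mul_cancel₀ _ (mul_ne_zero h2' h1)]
    ring
  rw [h5]
  have h6 : ‖(1 : ℂ) + a * (starRingEnd ℂ) w‖ = ‖(1 : ℂ) + a * w‖ := by
    have : (1 : ℂ) + a * (starRingEnd ℂ) w = (starRingEnd ℂ) (1 + a * w) := by simp
    rw [this, Complex.norm_conj]
  have n1 : ‖(1 : ℂ) + a * z‖ ≠ 0 := norm_ne_zero_iff.2 h1
  have n2 : ‖(1 : ℂ) + a * w‖ ≠ 0 := norm_ne_zero_iff.2 h2
  have n3 : ‖(1 : ℂ) - a ^ 2‖ ≠ 0 := norm_ne_zero_iff.2 h3
  simp only [norm_div, norm_mul, h6]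
  by_cases h7 : ‖1 - (starRingEnd ℂ) w * z‖ = 0
  · simp [h7]
  · field_simp

end Pool.Agent.N219.DW
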