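import Pool.Agent.N219.DW.Conv

open Set Filter Topology Metric MeasureTheory
open scoped Real

namespace Pool.Agent.N219.DW

open Classical in
/-- the exponent: `δ_n = (1/4)^{j n}` -/
noncomputable def jj (ε : ℕ → ℝ) (n : ℕ) : ℕ :=
  Nat.findGreatest (fun j => ∀ m, n ≤ m → ε m ≤ (1 / 4) ^ j) n

variable {ε : ℕ → ℝ}

theorem jj_mono (ε : ℕ → ℝ) : Monotone (jj ε) := by
  classical
  intro n m h
  unfold jj
  apply Nat.findGreatest_mono
  · intro j hj k hk
    exact hj k (h.trans hk)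
  · exact h

theorem jj_zero (ε : ℕ → ℝ) : jj ε 0 = 0 := by
  classical
  unfold jj
  exact Nat.findGreatest_zero

theorem jj_tendsto (hε : Tendsto ε atTop (𝓝 0)) : Tendsto (jj ε) atTop atTop := by
  rw [Filter.tendsto_atTop]
  intro K
  have h1 : ∀ᶠ n in atTop, ε n < (1 / 4) ^ K := hε.eventually (gt_mem_nhds (by positivity))
  obtain ⟨N, hN⟩ := h1.exists_forall_of_atTop
  filter_upwards [eventually_ge_atTop (max N K)] with n hn
  classical
  unfold jj
  apply Nat.le_findGreatest ((le_max_right _ _).trans hn)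
  intro m hm
  exact (hN m (((le_max_left _ _).trans hn).trans hm)).le

theorem jj_spec (hε : Tendsto ε atTop (𝓝 0)) : ∀ᶠ n in atTop, ε n ≤ (1 / 4) ^ (jj ε n) := by
  have h1 : ∀ᶠ n in atTop, ε n < 1 := hε.eventually (gt_mem_nhds (by norm_num))
  obtain ⟨N, hN⟩ := h1.exists_forall_of_atTop
  filter_upwards [eventually_ge_atTop N] with n hn
  classical
  have h2 : ∀ m, n ≤ m → ε m ≤ (1 / 4) ^ (jj ε n) := by
    unfold jj
    have := Nat.findGreatest_spec (P := fun j => ∀ m, n ≤ m → ε m ≤ (1 / 4 : ℝ) ^ j)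
      (n := n) (m := 0) (Nat.zero_le _) (by
        intro m hm
        rw [pow_zero]
        exact (hN m (hn.trans hm)).le)
    convert this
  exact h2 n le_rfl

/-- the numbers `δ_n` -/
noncomputable def dl (ε : ℕ → ℝ) (n : ℕ) : ℝ := (1 / 4) ^ (jj ε n)

/-- the numbers `τ_n` -/
noncomputable def tl (ε : ℕ → ℝ) (n : ℕ) : ℝ :=
  if jj ε n < jj ε (n + 1) then 1 else dl ε n ^ 2 / 8 * (1 / 8) ^ n

theorem dl_pos (ε : ℕ → ℝ) (n : ℕ) : 0 < dl ε n := by unfold dl; positivity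

theorem dl_le (ε : ℕ → ℝ) (n : ℕ) : dl ε n ≤ 1 := pow_le_one₀ (by norm_num) (by norm_num)

theorem jump_of_lt {n : ℕ} (h : jj ε n < jj ε (n + 1)) : Jump (dl ε) (tl ε) n := by
  refine ⟨?_, by simp [tl, h]⟩
  unfold dl
  calc (1 / 4 : ℝ) ^ jj ε (n + 1) ≤ (1 / 4) ^ (jj ε n + 1) :=
        pow_le_pow_of_le_one (by norm_num) (by norm_num) h
    _ = (1 / 4) ^ jj ε n / 4 := by rw [pow_succ]; ring

theorem sched (hε : Tendsto ε atTop (𝓝 0)) : Sched (dl ε) (tl ε) where
  d0 := by simp [dl, jj_zero]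
  dpos := dl_pos ε
  dle := dl_le ε
  tpos n := by
    unfold tl
    have := dl_pos ε n
    split_ifs <;> positivity
  tle n := by
    unfold tl
    split_ifs
    · exact le_rfl
    · have h1 := dl_pos ε n
      have h2 := dl_le ε n
      have h3 : dl ε n ^ 2 ≤ 1 := pow_le_one₀ h1.le h2
      have h4 : (1 / 8 : ℝ) ^ n ≤ 1 := pow_le_one₀ (by norm_num) (by norm_num)
      have h5 : (0 : ℝ) < (1 / 8 : ℝ) ^ n := by positivity
      nlinarith
  step n := by
    by_cases h : jj ε n < jj ε (n + 1)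
    · exact Or.inl (jump_of_lt h)
    · right
      have h1 : jj ε (n + 1) = jj ε n := le_antisymm (not_lt.1 h) (jj_mono ε (Nat.le_succ n))
      refine ⟨by unfold dl; rw [h1], ?_⟩
      simp [tl, h]
  jumps := by
    have h0 : ∃ᶠ n in atTop, jj ε n < jj ε (n + 1) := by
      intro hcon
      obtain ⟨N, hN⟩ := hcon.exists_forall_of_atTop
      have h1 : ∀ n, N ≤ n → jj ε n ≤ jj ε N := by
        intro n hn
        induction n, hn using Nat.le_induction with
        | base => exact le_rfl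
        | succ n hn ih => exact (not_lt.1 (hN n hn)).trans ih
      have h2 := (Filter.tendsto_atTop.1 (jj_tendsto hε)) (jj ε N + 1)
      obtain ⟨M, hM⟩ := h2.exists_forall_of_atTop
      have h3 := hM (max M N) (le_max_left _ _)
      have h4 := h1 (max M N) (le_max_right _ _)
      omega
    exact h0.mono fun n hn => jump_of_lt hn
  lim := (tendsto_pow_atTop_nhds_zero_of_lt_one (by norm_num) (by norm_num)).comp
    (jj_tendsto hε)

/-- the general theorem -/
theorem main (ε : ℕ → ℝ) (hε : Tendsto ε atTop (𝓝 0)) :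
    ∃ f : ℕ → ℂ → ℂ,
      (∀ n, ∃ a b t : ℝ, (0 ≤ a ∧ a < 1) ∧ (0 ≤ b ∧ b < 1) ∧ (0 ≤ t ∧ t < 1) ∧
        f n = mob b ∘ bl t ∘ mob (-a)) ∧
      (∀ n, IsInner (f n)) ∧ Contracting (fwd f) ∧ ToBoundary (fwd f) ∧
      (∀ᶠ n in atTop, ε n ≤ 1 - ‖fwd f n 0‖) ∧
      ∀ᵐ θ : ℝ, InDenjoyWolff (fwd f) θ := by
  have hs := sched hε
  refine ⟨ff (dl ε) (tl ε), ?_, ff_isInner hs, contracting hs, toBoundary hs, ?_, ae_inDW hs⟩
  · intro n
    refine ⟨1 - dl ε n, 1 - dl ε (n + 1), 1 - tl ε n, ?_, ?_, ?_, rfl⟩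
    · constructor <;> linarith [hs.dle n, hs.dpos n]
    · constructor <;> linarith [hs.dle (n + 1), hs.dpos (n + 1)]
    · constructor <;> linarith [hs.tle n, hs.tpos n]
  · filter_upwards [jj_spec hε] with n hn
    rw [fwd_zero hs, Complex.norm_real, Real.norm_of_nonneg (by linarith [hs.dle n])]
    have : (1 : ℝ) - (1 - dl ε n) = dl ε n := by ring
    rw [this]
    exact hn

theorem not_summable_of_le {u : ℕ → ℝ} (h : ∀ᶠ n : ℕ in atTop, 1 / ((n : ℝ) + 1) ≤ u n) :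
    ¬ Summable u := by
  intro hu
  have h1 : Summable (fun n : ℕ => 1 / ((n : ℝ) + 1)) := by
    refine Summable.of_norm_bounded_eventually_nat hu ?_
    filter_upwards [h] with n hn
    rw [Real.norm_of_nonneg (by positivity)]
    exact hn
  have h2 := (summable_nat_add_iff (f := fun n : ℕ => 1 / (n : ℝ)) 1).1 (by
    simpa using h1)
  exact Real.not_summable_one_div_natCast h2

theorem main' : ∃ f : ℕ → ℂ → ℂ,
      (∀ n, ∃ a b t : ℝ, (0 ≤ a ∧ a < 1) ∧ (0 ≤ b ∧ b < 1) ∧ (0 ≤ t ∧ t < 1) ∧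
        f n = mob b ∘ bl t ∘ mob (-a)) ∧
      (∀ n, IsInner (f n)) ∧ Contracting (fwd f) ∧ ToBoundary (fwd f) ∧
      (¬ Summable fun n => 1 - ‖fwd f n 0‖) ∧
      ∀ᵐ θ : ℝ, InDenjoyWolff (fwd f) θ := by
  obtain ⟨f, h1, h2, h3, h4, h5, h6⟩ := main (fun n => 1 / ((n : ℝ) + 1))
    tendsto_one_div_add_atTop_nhds_zero_nat
  exact ⟨f, h1, h2, h3, h4, not_summable_of_le h5, h6⟩

end Pool.Agent.N219.DW
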